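import Pool.Agent.MP_6357da_an.H27.Defs

set_option autoImplicit false
open MeasureTheory Set
open scoped NNReal ENNReal Manifold ContDiff

namespace Pool.Agent.MP_6357da_an.H81

abbrev E := EuclideanSpace ℝ (Fin 2)

lemma exists_smooth_pieces {ι : Type} (m : ℕ) (P : ι → Set ℝ) (φ : ι → ℝ → ℝ)
    (hφ : ∀ i, ContDiff ℝ m (φ i))
    (hsep : ∀ i j, ∀ x ∈ P i, ∀ y ∈ P j, |x - y| < 1 → i = j) :
    ∃ p : ℝ → ℝ, ContDiff ℝ m p ∧ ∀ i, ∀ x ∈ P i, p x = φ i x := by
  obtain ⟨g, hg⟩ := exists_contMDiffMap_forall_mem_convex_of_local (n := (m : ℕ∞)) 𝓘(ℝ, ℝ)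
    (t := fun x : ℝ => {v : ℝ | ∀ i, x ∈ P i → v = φ i x})
    (fun x => by
      intro u hu v hv a b _ _ hab i hi
      simp only [smul_eq_mul]
      rw [hu i hi, hv i hi, ← add_mul, hab, one_mul])
    (fun x => by
      refine ⟨Metric.ball x (1 / 2), Metric.ball_mem_nhds x (by norm_num), ?_⟩
      by_cases h : ∃ i, ∃ y ∈ Metric.ball x (1 / 2), y ∈ P i
      · obtain ⟨i, y, hy, hyi⟩ := h
        refine ⟨φ i, (hφ i).contMDiff.contMDiffOn, fun z hz j hj => ?_⟩
        have : i = j := by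
          refine hsep i j y hyi z hj ?_
          rw [Metric.mem_ball, Real.dist_eq, abs_lt] at hy hz
          rw [abs_lt]
          constructor <;> linarith [hy.1, hy.2, hz.1, hz.2]
        rw [this]
      · refine ⟨fun _ => 0, contMDiffOn_const, fun z hz j hj => ?_⟩
        exact absurd ⟨j, z, hz, hj⟩ h)
  exact ⟨g, g.contMDiff.contDiff, fun i x hx => hg x i hx⟩

lemma exists_p (m : ℕ) : ∃ p : ℝ → ℝ, ContDiff ℝ m p ∧ (∀ x ≤ 0, p x = 2 * x) ∧
    ∀ (a s : ℕ), s < 2 ^ a → ∀ K : ℝ, K = 2 ^ a → ∀ x : ℝ,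
      8 * K ^ 3 + (12 * s - 4) * K ^ 2 ≤ x → x ≤ 8 * K ^ 3 + (12 * s + 7) * K ^ 2 →
      p x = 16 * K ^ 3 + (4 * K + 1 / (4 * K)) * (x - 8 * K ^ 3) - s * (48 * K ^ 3) := by
  obtain ⟨p, hp, h⟩ := exists_smooth_pieces (ι := Option (ℕ × ℕ)) m
    (fun i => match i with
      | none => Iic 0
      | some (a, s) => {x | s < 2 ^ a ∧ 8 * ((2 : ℝ) ^ a) ^ 3 + (12 * s - 4) * ((2 : ℝ) ^ a) ^ 2 ≤ x ∧
          x ≤ 8 * ((2 : ℝ) ^ a) ^ 3 + (12 * s + 7) * ((2 : ℝ) ^ a) ^ 2})
    (fun i => match i with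
      | none => fun x => 2 * x
      | some (a, s) => fun x => 16 * ((2 : ℝ) ^ a) ^ 3 + (4 * (2 : ℝ) ^ a + 1 / (4 * (2 : ℝ) ^ a)) *
          (x - 8 * ((2 : ℝ) ^ a) ^ 3) - s * (48 * ((2 : ℝ) ^ a) ^ 3))
    (fun i => by
      rcases i with _ | ⟨a, s⟩
      · simp only; fun_prop
      · simp only; fun_prop)
    (by
      have low : ∀ (a s : ℕ) (x : ℝ),
          8 * ((2 : ℝ) ^ a) ^ 3 + (12 * s - 4) * ((2 : ℝ) ^ a) ^ 2 ≤ x → 4 * ((2 : ℝ) ^ a) ^ 3 ≤ x := by
        intro a s x hx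
        have h1 : (1 : ℝ) ≤ 2 ^ a := one_le_pow₀ (by norm_num)
        have h2 : (0 : ℝ) ≤ s := Nat.cast_nonneg s
        generalize (2 : ℝ) ^ a = K at *
        nlinarith [mul_nonneg h2 (sq_nonneg K), mul_nonneg (sub_nonneg.2 h1) (sq_nonneg K)]
      have high : ∀ (a s : ℕ) (x : ℝ), s < 2 ^ a →
          x ≤ 8 * ((2 : ℝ) ^ a) ^ 3 + (12 * s + 7) * ((2 : ℝ) ^ a) ^ 2 → x ≤ 20 * ((2 : ℝ) ^ a) ^ 3 := by
        intro a s x hs hx
        have h2 : (s : ℝ) + 1 ≤ 2 ^ a := by exact_mod_cast hs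
        generalize (2 : ℝ) ^ a = K at *
        nlinarith [mul_nonneg (sub_nonneg.2 h2) (sq_nonneg K), sq_nonneg K]
      have one : ∀ a : ℕ, (1 : ℝ) ≤ ((2 : ℝ) ^ a) ^ 3 := fun a =>
        one_le_pow₀ (one_le_pow₀ (by norm_num))
      have cube : ∀ a b : ℕ, a < b → 8 * ((2 : ℝ) ^ a) ^ 3 ≤ ((2 : ℝ) ^ b) ^ 3 := by
        intro a b hab
        have : (2 : ℝ) ^ (a + 1) ≤ 2 ^ b := pow_le_pow_right₀ (by norm_num) hab
        calc 8 * ((2 : ℝ) ^ a) ^ 3 = ((2 : ℝ) ^ (a + 1)) ^ 3 := by ring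
          _ ≤ _ := by gcongr
      intro i j x hx y hy hxy
      rw [abs_lt] at hxy
      rcases i with _ | ⟨a, s⟩ <;> rcases j with _ | ⟨b, t⟩
      · rfl
      · exfalso
        have := low b t y hy.2.1
        have := one b
        have : x ≤ 0 := hx
        linarith [hxy.1]
      · exfalso
        have := low a s x hx.2.1
        have := one a
        have : y ≤ 0 := hy
        linarith [hxy.2]
      · obtain ⟨x1, x2, x3⟩ := hx
        obtain ⟨y1, y2, y3⟩ := hy
        have hab : a = b := by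
          rcases lt_trichotomy a b with h | h | h
          · exfalso
            have := low b t y y2
            have := high a s x x1 x3
            have := cube a b h
            have := one a
            linarith [hxy.1]
          · exact h
          · exfalso
            have := low a s x x2
            have := high b t y y1 y3
            have := cube b a h
            have := one b
            linarith [hxy.2]
        subst hab
        have h1 : (1 : ℝ) ≤ ((2 : ℝ) ^ a) ^ 2 := one_le_pow₀ (one_le_pow₀ (by norm_num))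
        have hst : s = t := by
          rcases lt_trichotomy s t with h | h | h
          · exfalso
            have : (s : ℝ) + 1 ≤ t := by exact_mod_cast h
            nlinarith [hxy.1]
          · exact h
          · exfalso
            have : (t : ℝ) + 1 ≤ s := by exact_mod_cast h
            nlinarith [hxy.2]
        rw [hst])
  refine ⟨p, hp, fun x hx => h none x hx, ?_⟩
  rintro a s hs K rfl x h1 h2
  exact h (some (a, s)) x ⟨hs, h1, h2⟩

/-- the Henon-like map -/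
def henon (p : ℝ → ℝ) : Equiv.Perm E where
  toFun z := !₂[z 1, p (z 1) - z 0]
  invFun z := !₂[p (z 0) - z 1, z 0]
  left_inv z := by
    ext i; fin_cases i <;> simp
  right_inv z := by
    ext i; fin_cases i <;> simp

lemma henon_apply (p : ℝ → ℝ) (z : E) : henon p z = !₂[z 1, p (z 1) - z 0] := rfl
lemma henon_inv_apply (p : ℝ → ℝ) (z : E) : (henon p)⁻¹ z = !₂[p (z 0) - z 1, z 0] := rfl

lemma henon_mp (p : ℝ → ℝ) (hp : Continuous p) : MeasurePreserving (henon p) volume volume := by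
  have h1 : MeasurePreserving (fun q : ℝ × ℝ => (q.1, p q.1 - q.2)) volume volume :=
    MeasurePreserving.skew_product (g := fun y x => p y - x) (MeasurePreserving.id volume)
      (by fun_prop)
      (Filter.Eventually.of_forall fun y => (Measure.measurePreserving_sub_left volume (p y)).map_eq)
  have h2 : MeasurePreserving (Prod.swap : ℝ × ℝ → ℝ × ℝ) volume volume := Measure.measurePreserving_swap
  have h3 := volume_preserving_finTwoArrow ℝ
  have h4 := (PiLp.volume_preserving_toLp (Fin 2)).comp ((h3.symm _).comp (h1.comp (h2.comp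
    (h3.comp (PiLp.volume_preserving_ofLp (Fin 2))))))
  refine (funext fun z => ?_ : _ = (henon p : E → E)) ▸ h4
  ext i
  fin_cases i <;> simp [henon_apply, MeasurableEquiv.finTwoArrow]

lemma henon_inv_mp (p : ℝ → ℝ) (hp : Continuous p) :
    MeasurePreserving ((henon p)⁻¹ : Equiv.Perm E) volume volume := by
  have h1 : MeasurePreserving (fun q : ℝ × ℝ => (q.1, p q.1 - q.2)) volume volume :=
    MeasurePreserving.skew_product (g := fun y x => p y - x) (MeasurePreserving.id volume)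
      (by fun_prop)
      (Filter.Eventually.of_forall fun y => (Measure.measurePreserving_sub_left volume (p y)).map_eq)
  have h2 : MeasurePreserving (Prod.swap : ℝ × ℝ → ℝ × ℝ) volume volume := Measure.measurePreserving_swap
  have h3 := volume_preserving_finTwoArrow ℝ
  have h4 := (PiLp.volume_preserving_toLp (Fin 2)).comp ((h3.symm _).comp (h2.comp (h1.comp
    (h3.comp (PiLp.volume_preserving_ofLp (Fin 2))))))
  refine (funext fun z => ?_ : _ = (((henon p)⁻¹ : Equiv.Perm E) : E → E)) ▸ h4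
  ext i
  fin_cases i <;> simp [henon_inv_apply, MeasurableEquiv.finTwoArrow]

lemma henon_cascade (m : ℕ) (p : ℝ → ℝ) (hp : ContDiff ℝ m p) :
    H27.IsCascade m (fun t : ℤ => ((henon p ^ t : Equiv.Perm E) : E → E)) := by
  refine ⟨by simp, fun t s => by simp only [zpow_add]; rfl, ?_, ?_, ?_⟩
  · intro t
    induction t using Int.induction_on with
    | zero => simpa using MeasurePreserving.id volume
    | succ n ih =>
      simp only [zpow_add, zpow_one] at ih ⊢
      exact ih.comp (henon_mp p hp.continuous)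
    | pred n ih =>
      simp only [zpow_sub, zpow_one] at ih ⊢
      exact ih.comp (henon_inv_mp p hp.continuous)
  · simp only [zpow_one]
    rw [contDiff_euclidean]
    intro i
    fin_cases i
    · simp only [henon_apply]; simp; fun_prop
    · simp only [henon_apply]; simp; fun_prop
  · simp only [zpow_neg, zpow_one]
    rw [contDiff_euclidean]
    intro i
    fin_cases i
    · simp only [henon_inv_apply]; simp; fun_prop
    · simp only [henon_inv_apply]; simp; fun_prop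

lemma backward_unbounded (p : ℝ → ℝ) (hp : ∀ x ≤ 0, p x = 2 * x) (z : E) (h0 : z 0 ≤ 0)
    (h1 : z 0 < z 1) :
    ¬ Bornology.IsBounded {y | ∃ t : ℤ, t ≤ 0 ∧ y = (henon p ^ t : Equiv.Perm E) z} := by
  have key : ∀ n : ℕ, ((henon p ^ (-(n : ℤ)) : Equiv.Perm E) z) 0 = z 0 - n * (z 1 - z 0) ∧
      ((henon p ^ (-(n : ℤ)) : Equiv.Perm E) z) 1 = z 1 - n * (z 1 - z 0) := by
    intro n
    induction n with
    | zero => simp
    | succ n ih =>
      have e : (henon p ^ (-((n + 1 : ℕ) : ℤ)) : Equiv.Perm E) z =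
          (henon p)⁻¹ ((henon p ^ (-(n : ℤ)) : Equiv.Perm E) z) := by
        rw [← Equiv.Perm.mul_apply, ← zpow_neg_one, ← zpow_add]
        congr 2
        push_cast
        ring
      rw [e, henon_inv_apply]
      simp only [Matrix.cons_val_zero, Matrix.cons_val_one, Matrix.cons_val_fin_one]
      have hn : (0 : ℝ) ≤ n := Nat.cast_nonneg n
      rw [ih.1, ih.2, hp _ (by nlinarith)]
      push_cast
      constructor <;> ring
  intro hb
  obtain ⟨R, hR⟩ := hb.exists_norm_le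
  obtain ⟨n, hn⟩ := exists_nat_gt (R / (z 1 - z 0))
  have h2 := hR _ ⟨-(n : ℤ), by omega, rfl⟩
  have h3 := (PiLp.norm_apply_le ((henon p ^ (-(n : ℤ)) : Equiv.Perm E) z) 0).trans h2
  rw [(key n).1, Real.norm_eq_abs, abs_le] at h3
  rw [div_lt_iff₀ (by linarith)] at hn
  linarith [h3.1]

lemma forward_bounded (p : ℝ → ℝ) (A : Set E) (hA : Bornology.IsBounded A)
    (hinv : ∀ z ∈ A, henon p z ∈ A) (z : E) (hz : z ∈ A) :
    Bornology.IsBounded {y | ∃ t : ℤ, 0 ≤ t ∧ y = (henon p ^ t : Equiv.Perm E) z} := by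
  refine hA.subset ?_
  rintro y ⟨t, ht, rfl⟩
  obtain ⟨n, rfl⟩ := Int.eq_ofNat_of_zero_le ht
  clear ht
  induction n with
  | zero => simpa using hz
  | succ n ih =>
    have e : (henon p ^ ((n + 1 : ℕ) : ℤ) : Equiv.Perm E) z =
        henon p ((henon p ^ (n : ℤ) : Equiv.Perm E) z) := by
      rw [← Equiv.Perm.mul_apply, ← zpow_one_add]
      congr 2
      push_cast
      ring
    rw [e]
    exact hinv _ ih

lemma exists_h (k : ℕ) (K β : ℝ) (hk : K = k) (hK : 1 ≤ K) (hβ : 0 ≤ β) : ∃ h : ℝ → ℝ,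
    (∀ y ∈ Ico (0 : ℝ) 1, 0 ≤ h y ∧ h y ≤ β / 4) ∧
    ∀ y ∈ Ico (0 : ℝ) 1, 4 * K * h y = β * ⌊K * y⌋₊ + h (Int.fract (K * y)) := by
  set T : ℝ → ℝ := fun y => Int.fract (K * y) with hT
  have hT1 : ∀ y ∈ Ico (0 : ℝ) 1, ∀ n, T^[n] y ∈ Ico (0 : ℝ) 1 := by
    intro y hy n
    cases n with
    | zero => exact hy
    | succ n => rw [Function.iterate_succ_apply']; exact ⟨Int.fract_nonneg _, Int.fract_lt_one _⟩
  set r := (4 * K)⁻¹ with hr
  have hr0 : 0 < r := by positivity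
  have hr1 : r ≤ 1 / 4 := by
    rw [hr, one_div]; apply inv_anti₀ <;> linarith
  have hb : ∀ y ∈ Ico (0 : ℝ) 1, ∀ n,
      β * ⌊K * T^[n] y⌋₊ * r ^ (n + 1) ≤ β / 4 * (1 - r) * r ^ n := by
    intro y hy n
    have h1 := hT1 y hy n
    have h2 : ⌊K * T^[n] y⌋₊ < k := by
      rw [Nat.floor_lt (mul_nonneg (by linarith) h1.1), ← hk]
      nlinarith [h1.2]
    have h2' : (⌊K * T^[n] y⌋₊ : ℝ) ≤ K - 1 := by
      have : (⌊K * T^[n] y⌋₊ : ℝ) + 1 ≤ k := by exact_mod_cast h2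
      linarith
    have h3 : K * r = 1 / 4 := by rw [hr]; field_simp
    have h4 : (K - 1) * r ≤ 1 / 4 * (1 - r) := by linarith
    calc β * ⌊K * T^[n] y⌋₊ * r ^ (n + 1) ≤ β * (K - 1) * r ^ (n + 1) := by gcongr
      _ = β * ((K - 1) * r) * r ^ n := by ring
      _ ≤ β * (1 / 4 * (1 - r)) * r ^ n := by gcongr
      _ = _ := by ring
  have hgeo : HasSum (fun n : ℕ => β / 4 * (1 - r) * r ^ n) (β / 4) := by
    have := (hasSum_geometric_of_lt_one hr0.le (by linarith)).mul_left (β / 4 * (1 - r))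
    have e : β / 4 * (1 - r) * (1 - r)⁻¹ = β / 4 := by
      have : 1 - r ≠ 0 := by linarith
      field_simp
    rwa [e] at this
  have hs : ∀ y ∈ Ico (0 : ℝ) 1, Summable (fun n => β * ⌊K * T^[n] y⌋₊ * r ^ (n + 1)) :=
    fun y hy => Summable.of_nonneg_of_le (fun n => by positivity) (hb y hy) hgeo.summable
  refine ⟨fun y => ∑' n, β * ⌊K * T^[n] y⌋₊ * r ^ (n + 1), fun y hy => ⟨?_, ?_⟩, fun y hy => ?_⟩
  · exact tsum_nonneg (fun n => by positivity)
  · rw [← hgeo.tsum_eq]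
    exact (hs y hy).tsum_le_tsum (hb y hy) hgeo.summable
  · simp only
    rw [(hs y hy).tsum_eq_zero_add, mul_add, ← tsum_mul_left]
    have h3 : 4 * K * r = 1 := by rw [hr]; field_simp
    congr 1
    · simp only [Function.iterate_zero, id_eq, zero_add, pow_one]
      linear_combination (β * ⌊K * y⌋₊) * h3
    · refine tsum_congr (fun n => ?_)
      rw [Function.iterate_succ_apply]
      linear_combination (β * ⌊K * T^[n] (T y)⌋₊ * r ^ (n + 1)) * h3

lemma anti_step (K β : ℝ) (hK : 1 ≤ K) (hβ : 0 < β) (h : ℝ → ℝ)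
    (h1 : ∀ y ∈ Ico (0 : ℝ) 1, 0 ≤ h y ∧ h y ≤ β / 4)
    (h2 : ∀ y ∈ Ico (0 : ℝ) 1, 4 * K * h y = β * ⌊K * y⌋₊ + h (Int.fract (K * y))) (n : ℕ) :
    ∀ y ∈ Ico (0 : ℝ) 1, ∀ y' ∈ Ico (0 : ℝ) 1,
      |h y - h y'| * (4 * K) ^ n < β / 2 → |y - y'| * K ^ n ≤ 1 := by
  induction n with
  | zero =>
    intro y hy y' hy' _
    rw [pow_zero, mul_one, abs_le]
    constructor <;> linarith [hy.1, hy.2, hy'.1, hy'.2]
  | succ n ih =>
    intro y hy y' hy' hd
    have f1 : Int.fract (K * y) ∈ Ico (0 : ℝ) 1 := ⟨Int.fract_nonneg _, Int.fract_lt_one _⟩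
    have f2 : Int.fract (K * y') ∈ Ico (0 : ℝ) 1 := ⟨Int.fract_nonneg _, Int.fract_lt_one _⟩
    have e1 := h2 y hy
    have e2 := h2 y' hy'
    have b1 := h1 _ f1
    have b2 := h1 _ f2
    have p1 : (1 : ℝ) ≤ (4 * K) ^ n := one_le_pow₀ (by linarith)
    have d1 : |4 * K * h y - 4 * K * h y'| * (4 * K) ^ n < β / 2 := by
      rw [← mul_sub, abs_mul, abs_of_pos (by linarith : 0 < 4 * K)]
      calc 4 * K * |h y - h y'| * (4 * K) ^ n = |h y - h y'| * (4 * K) ^ (n + 1) := by ring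
        _ < _ := hd
    have d2 : |4 * K * h y - 4 * K * h y'| < β / 2 :=
      lt_of_le_of_lt (le_mul_of_one_le_right (abs_nonneg _) p1) d1
    have hs : ⌊K * y⌋₊ = ⌊K * y'⌋₊ := by
      rw [e1, e2, abs_lt] at d2
      rcases lt_trichotomy ⌊K * y⌋₊ ⌊K * y'⌋₊ with c | c | c
      · exfalso
        have : (⌊K * y⌋₊ : ℝ) + 1 ≤ ⌊K * y'⌋₊ := by exact_mod_cast c
        nlinarith [d2.1]
      · exact c
      · exfalso
        have : (⌊K * y'⌋₊ : ℝ) + 1 ≤ ⌊K * y⌋₊ := by exact_mod_cast c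
        nlinarith [d2.2]
    rw [e1, e2, hs, add_sub_add_left_eq_sub] at d1
    have i1 := ih _ f1 _ f2 d1
    have g1 : Int.fract (K * y) = K * y - ⌊K * y⌋₊ := by
      rw [natCast_floor_eq_intCast_floor (mul_nonneg (by linarith) hy.1)]; rfl
    have g2 : Int.fract (K * y') = K * y' - ⌊K * y'⌋₊ := by
      rw [natCast_floor_eq_intCast_floor (mul_nonneg (by linarith) hy'.1)]; rfl
    rw [g1, g2, hs, sub_sub_sub_cancel_right, ← mul_sub, abs_mul, abs_of_pos (by linarith : 0 < K)] at i1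
    calc |y - y'| * K ^ (n + 1) = K * |y - y'| * K ^ n := by ring
      _ ≤ 1 := i1

lemma anti_holder (K β r : ℝ) (hK : 2 ≤ K) (hβ : 4 ≤ β) (hr : 0 < r) (hKr : (4 * K) ^ r = K)
    (h : ℝ → ℝ)
    (h1 : ∀ y ∈ Ico (0 : ℝ) 1, 0 ≤ h y ∧ h y ≤ β / 4)
    (h2 : ∀ y ∈ Ico (0 : ℝ) 1, 4 * K * h y = β * ⌊K * y⌋₊ + h (Int.fract (K * y)))
    (y : ℝ) (hy : y ∈ Ico (0 : ℝ) 1) (y' : ℝ) (hy' : y' ∈ Ico (0 : ℝ) 1) (d : ℝ)
    (hd : |h y - h y'| ≤ 2 * d) : |y - y'| ≤ K * d ^ r := by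
  have key := fun n => anti_step K β (by linarith) (by linarith) h h1 h2 n y hy y' hy'
  have hd0 : 0 ≤ d := by linarith [abs_nonneg (h y - h y')]
  by_cases hall : ∀ n : ℕ, |h y - h y'| * (4 * K) ^ n < β / 2
  · have : |y - y'| = 0 := by
      by_contra hne
      have hpos : 0 < |y - y'| := lt_of_le_of_ne (abs_nonneg _) (Ne.symm hne)
      obtain ⟨n, hn⟩ := pow_unbounded_of_one_lt (1 / |y - y'|) (by linarith : (1 : ℝ) < K)
      have := key n (hall n)
      rw [div_lt_iff₀ hpos] at hn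
      linarith
    rw [this]
    positivity
  · classical
    push Not at hall
    have c1 := Nat.find_spec hall
    have c0 : Nat.find hall ≠ 0 := by
      intro e
      rw [e, pow_zero, mul_one] at c1
      have a := h1 y hy
      have b := h1 y' hy'
      have : |h y - h y'| ≤ β / 4 := by
        rw [abs_le]; constructor <;> linarith [a.1, a.2, b.1, b.2]
      linarith
    obtain ⟨n, hn⟩ : ∃ n, Nat.find hall = n + 1 := ⟨Nat.find hall - 1, by omega⟩
    have c2 := Nat.find_min hall (show n < Nat.find hall by omega)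
    rw [hn] at c1
    have c3 := key n (not_le.1 c2)
    have c4 : 1 ≤ d * (4 * K) ^ (n + 1) := by
      have : |h y - h y'| * (4 * K) ^ (n + 1) ≤ 2 * d * (4 * K) ^ (n + 1) := by gcongr
      linarith
    have c5 : 1 ≤ d ^ r * K ^ (n + 1) := by
      have := Real.one_le_rpow c4 hr.le
      rw [Real.mul_rpow hd0 (by positivity), ← Real.rpow_natCast, ← Real.rpow_mul (by positivity),
        mul_comm _ r, Real.rpow_mul (by positivity), hKr, Real.rpow_natCast] at this
      exact this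
    have c6 : 0 < K ^ n := by positivity
    have c7 : |y - y'| * K ^ n ≤ (K * d ^ r) * K ^ n := by
      calc |y - y'| * K ^ n ≤ d ^ r * K ^ (n + 1) := c3.trans c5
        _ = _ := by ring
    exact le_of_mul_le_mul_right c7 c6

lemma dimH_of_anti {X Y : Type} [MetricSpace X] [MetricSpace Y] [Nonempty X] (S : Set X) (H : X → Y)
    (C r : ℝ≥0) (hr : 0 < r)
    (h : ∀ x ∈ S, ∀ y ∈ S, dist x y ≤ C * dist (H x) (H y) ^ (r : ℝ)) :
    dimH S ≤ dimH (H '' S) / r := by
  have hinj : InjOn H S := by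
    intro x hx y hy e
    have := h x hx y hy
    rw [e, dist_self, Real.zero_rpow (by exact_mod_cast hr.ne'), mul_zero] at this
    exact dist_le_zero.1 this
  have hH : HolderOnWith C r (Function.invFunOn H S) (H '' S) := by
    rintro _ ⟨x, hx, rfl⟩ _ ⟨y, hy, rfl⟩
    rw [hinj.leftInvOn_invFunOn hx, hinj.leftInvOn_invFunOn hy, edist_dist, edist_dist,
      ENNReal.ofReal_rpow_of_nonneg dist_nonneg r.coe_nonneg, ← ENNReal.ofReal_coe_nnreal,
      ← ENNReal.ofReal_mul C.coe_nonneg]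
    exact ENNReal.ofReal_le_ofReal (h x hx y hy)
  have := hH.dimH_image_le hr
  rwa [hinj.invFunOn_image (Subset.refl S)] at this

lemma level (p : ℝ → ℝ) (hp0 : ∀ x ≤ 0, p x = 2 * x) (a : ℕ) (ha : 1 ≤ a)
    (hp : ∀ s : ℕ, s < 2 ^ a → ∀ K : ℝ, K = 2 ^ a → ∀ x : ℝ,
      8 * K ^ 3 + (12 * s - 4) * K ^ 2 ≤ x → x ≤ 8 * K ^ 3 + (12 * s + 7) * K ^ 2 →
      p x = 16 * K ^ 3 + (4 * K + 1 / (4 * K)) * (x - 8 * K ^ 3) - s * (48 * K ^ 3)) :
    2 ≤ dimH (H27.trapped (fun t : ℤ => ((henon p ^ t : Equiv.Perm E) : E → E))) /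
      ((a / (a + 2) : ℝ≥0) : ℝ≥0∞) := by
  set K : ℝ := 2 ^ a with hK
  have hK2 : 2 ≤ K := by
    calc (2 : ℝ) = 2 ^ 1 := by norm_num
      _ ≤ 2 ^ a := pow_le_pow_right₀ (by norm_num) ha
  have hK3 : 8 ≤ K ^ 3 := by
    calc (8 : ℝ) = 2 ^ 3 := by norm_num
      _ ≤ K ^ 3 := by gcongr
  have hK0 : 0 < K := by linarith
  obtain ⟨h, h1, h2⟩ := exists_h (2 ^ a) K (48 * K ^ 3) (by rw [hK]; push_cast; rfl) (by linarith)
    (by positivity)
  set A : Set E := {z | ∃ y ∈ Ico (0 : ℝ) 1, |z 0 - 8 * K ^ 3| ≤ 16 * K ^ 3 ∧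
    z 1 - 8 * K ^ 3 = h y + (z 0 - 8 * K ^ 3) / (4 * K)} with hA
  have hz1 : ∀ z ∈ A, -(4 * K ^ 3) ≤ z 1 - 8 * K ^ 3 ∧ z 1 - 8 * K ^ 3 ≤ 16 * K ^ 3 := by
    rintro z ⟨y, hy, hz, e⟩
    have b := h1 y hy
    have c : |(z 0 - 8 * K ^ 3) / (4 * K)| ≤ 4 * K ^ 3 := by
      rw [abs_div, abs_of_pos (show 0 < 4 * K by positivity), div_le_iff₀ (by positivity)]
      nlinarith
    rw [abs_le] at c
    constructor <;> linarith [b.1, b.2, c.1, c.2]
  have hinv : ∀ z ∈ A, henon p z ∈ A := by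
    intro z hzA
    have b0 := hz1 z hzA
    obtain ⟨y, hy, hz, e⟩ := hzA
    have f1 : Int.fract (K * y) ∈ Ico (0 : ℝ) 1 := ⟨Int.fract_nonneg _, Int.fract_lt_one _⟩
    have b := h1 _ f1
    have e1 := h2 y hy
    rw [abs_le] at hz
    have e2 : 4 * K * (z 1 - 8 * K ^ 3) =
        48 * K ^ 3 * ⌊K * y⌋₊ + h (Int.fract (K * y)) + (z 0 - 8 * K ^ 3) := by
      rw [e, mul_add, e1]; field_simp
    have e3 := hp ⌊K * y⌋₊ (by
        rw [Nat.floor_lt (mul_nonneg hK0.le hy.1)]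
        push_cast
        nlinarith [hy.2]) K rfl (z 1)
      (by
        refine le_of_mul_le_mul_left ?_ (show 0 < 4 * K by positivity)
        nlinarith [b.1, hz.1])
      (by
        refine le_of_mul_le_mul_left ?_ (show 0 < 4 * K by positivity)
        nlinarith [b.2, hz.2])
    refine ⟨_, f1, ?_, ?_⟩
    · simp only [henon_apply, Matrix.cons_val_zero]
      rw [abs_le]
      constructor <;> linarith [b0.1, b0.2]
    · simp only [henon_apply, Matrix.cons_val_zero, Matrix.cons_val_one, Matrix.cons_val_fin_one]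
      rw [e3]
      linear_combination e2
  have hbdd : Bornology.IsBounded A := by
    rw [isBounded_iff_forall_norm_le]
    refine ⟨48 * K ^ 3, fun z hzA => ?_⟩
    have b0 := hz1 z hzA
    obtain ⟨y, hy, hz, e⟩ := hzA
    rw [abs_le] at hz
    rw [EuclideanSpace.norm_eq, Fin.sum_univ_two, Real.norm_eq_abs, Real.norm_eq_abs, sq_abs, sq_abs]
    apply Real.sqrt_le_iff.2
    refine ⟨by positivity, ?_⟩
    have c0 : z 0 ^ 2 ≤ (24 * K ^ 3) ^ 2 := sq_le_sq' (by linarith [hz.1]) (by linarith [hz.2])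
    have c1 : z 1 ^ 2 ≤ (24 * K ^ 3) ^ 2 := sq_le_sq' (by linarith [b0.1]) (by linarith [b0.2])
    nlinarith [sq_nonneg (K ^ 3)]
  set S : Set (ℝ × ℝ) := Icc (-1) 0 ×ˢ Ico 0 1 with hS
  set H : ℝ × ℝ → E := fun q => !₂[q.1, 8 * K ^ 3 + h q.2 + (q.1 - 8 * K ^ 3) / (4 * K)] with hH
  have hSA : ∀ q ∈ S, H q ∈ A := by
    rintro q ⟨hq1, hq2⟩
    refine ⟨q.2, hq2, ?_, ?_⟩
    · simp only [hH, Matrix.cons_val_zero]
      rw [abs_le]
      constructor <;> linarith [hq1.1, hq1.2]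
    · simp only [hH, Matrix.cons_val_zero, Matrix.cons_val_one, Matrix.cons_val_fin_one]
      ring
  have hST : H '' S ⊆ H27.trapped (fun t : ℤ => ((henon p ^ t : Equiv.Perm E) : E → E)) := by
    rintro _ ⟨q, hq, rfl⟩
    have b0 := hz1 _ (hSA q hq)
    have b1 : H q 0 ≤ 0 := by
      simp only [hH, Matrix.cons_val_zero]; exact hq.1.2
    exact ⟨forward_bounded p A hbdd hinv _ (hSA q hq),
      backward_unbounded p hp0 _ b1 (by linarith [b0.1])⟩
  have hdS : dimH S = 2 := by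
    have : S ∈ nhds ((-1 / 2, 1 / 2) : ℝ × ℝ) :=
      prod_mem_nhds (Icc_mem_nhds (by norm_num) (by norm_num))
        (Ico_mem_nhds (by norm_num) (by norm_num))
    rw [Real.dimH_of_mem_nhds this]
    simp
  have ha' : (0 : ℝ≥0) < a := by exact_mod_cast ha
  have hr0 : (0 : ℝ≥0) < a / (a + 2) := by positivity
  have hrR : ((a / (a + 2) : ℝ≥0) : ℝ) = (a : ℝ) / (a + 2) := by push_cast; rfl
  have hr1 : ((a / (a + 2) : ℝ≥0) : ℝ) ≤ 1 := by
    rw [hrR, div_le_one (by positivity)]; linarith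
  have hKr : (4 * K) ^ ((a / (a + 2) : ℝ≥0) : ℝ) = K := by
    have : 4 * K = (2 : ℝ) ^ ((a : ℝ) + 2) := by
      rw [Real.rpow_add (by norm_num), Real.rpow_natCast, hK]; norm_num; ring
    rw [this, ← Real.rpow_mul (by norm_num), hrR, mul_div_cancel₀ _ (by positivity),
      Real.rpow_natCast]
  have main := dimH_of_anti S H ⟨K, hK0.le⟩ (a / (a + 2)) hr0 (by
    rintro q ⟨hq1, hq2⟩ q' ⟨hq1', hq2'⟩
    set d := dist (H q) (H q') with hd
    have d0 : |q.1 - q'.1| ≤ d := by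
      have := PiLp.dist_apply_le (H q) (H q') 0
      simpa [hH, Real.dist_eq] using this
    have d1 : |h q.2 - h q'.2 + (q.1 - q'.1) / (4 * K)| ≤ d := by
      have := PiLp.dist_apply_le (H q) (H q') 1
      simp only [hH, Matrix.cons_val_one, Matrix.cons_val_fin_one, Real.dist_eq] at this
      convert this using 2
      ring
    have d2 : |(q.1 - q'.1) / (4 * K)| ≤ d := by
      rw [abs_div, abs_of_pos (show 0 < 4 * K by positivity), div_le_iff₀ (by positivity)]
      have : 0 ≤ d := dist_nonneg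
      nlinarith
    have d3 : |h q.2 - h q'.2| ≤ 2 * d := by
      rw [abs_le] at d1 d2 ⊢
      constructor <;> linarith [d1.1, d1.2, d2.1, d2.2]
    have d4 := anti_holder K (48 * K ^ 3) _ hK2 (by linarith) (by exact_mod_cast hr0) hKr h h1 h2
      q.2 hq2 q'.2 hq2' d d3
    have d5 : |q.1 - q'.1| ≤ 1 := by
      rw [abs_le]; constructor <;> linarith [hq1.1, hq1.2, hq1'.1, hq1'.2]
    have d6 : |q.1 - q'.1| ≤ d ^ ((a / (a + 2) : ℝ≥0) : ℝ) :=
      (Real.self_le_rpow_of_le_one (abs_nonneg _) d5 hr1).trans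
        (Real.rpow_le_rpow (abs_nonneg _) d0 (NNReal.coe_nonneg _))
    have d7 : 0 ≤ d ^ ((a / (a + 2) : ℝ≥0) : ℝ) := (abs_nonneg _).trans d6
    rw [Prod.dist_eq, Real.dist_eq, Real.dist_eq]
    refine max_le ?_ d4
    show _ ≤ K * _
    nlinarith)
  rw [hdS] at main
  exact main.trans (ENNReal.div_le_div_right (dimH_mono hST) _)

theorem cascade_two (m : ℕ) : ∃ g, H27.IsCascade m g ∧ dimH (H27.trapped g) = 2 := by
  obtain ⟨p, hp, hp0, hp1⟩ := exists_p m
  refine ⟨_, henon_cascade m p hp, ?_⟩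
  set D := dimH (H27.trapped (fun t : ℤ => ((henon p ^ t : Equiv.Perm E) : E → E))) with hD
  have hup : D ≤ 2 := by
    have := dimH_mono (Set.subset_univ
      (H27.trapped (fun t : ℤ => ((henon p ^ t : Equiv.Perm E) : E → E))))
    rw [Real.dimH_univ_eq_finrank] at this
    simpa using this
  refine le_antisymm hup ?_
  have hne : D ≠ ⊤ := ne_top_of_le_ne_top (by norm_num) hup
  lift D to ℝ≥0 using hne with D' hD'
  have key : ∀ a : ℕ, 1 ≤ a → 2 * ((a : ℝ) / (a + 2)) ≤ D' := by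
    intro a ha
    have h1 := level p hp0 a ha (hp1 a)
    rw [← hD] at h1
    have ha' : (0 : ℝ≥0) < a := by exact_mod_cast ha
    have hr0 : (0 : ℝ≥0) < a / (a + 2) := by positivity
    rw [← ENNReal.coe_div hr0.ne'] at h1
    have h2 : (2 : ℝ≥0) ≤ D' / (a / (a + 2)) := by exact_mod_cast h1
    rw [le_div_iff₀ hr0] at h2
    exact_mod_cast h2
  have h3 : (2 : ℝ) ≤ D' := by
    by_contra hlt
    push Not at hlt
    obtain ⟨a, ha⟩ := exists_nat_gt (4 / (2 - (D' : ℝ)))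
    have h4 := key (a + 1) (by omega)
    rw [div_lt_iff₀ (by linarith)] at ha
    rw [← mul_div_assoc, div_le_iff₀ (by positivity)] at h4
    push_cast at h4
    nlinarith
  exact_mod_cast h3

end Pool.Agent.MP_6357da_an.H81
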